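import Mathlib

/-!
# The prime number theorem

Newman's Tauberian theorem in Mellin form (`newman`), and the prime number theorem in the forms
`psi_div_tendsto`, `theta_div_tendsto`, `primeCounting_tendsto` (`π(x) log x / x → 1`).
-/

section part1

open Complex MeasureTheory Set Filter Topology

namespace Pool.Agent.H62.PNT

/-- boundary integral over the rectangle `[a,b] × [-R,R]` -/
noncomputable def rectInt (Φ : ℂ → ℂ) (a b R : ℝ) : ℂ :=
  (∫ x : ℝ in a..b, Φ (x + ((-R : ℝ) : ℂ) * I)) - (∫ x : ℝ in a..b, Φ (x + (R : ℂ) * I)) +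
    I * (∫ y : ℝ in (-R)..R, Φ (b + y * I)) - I * ∫ y : ℝ in (-R)..R, Φ (a + y * I)

lemma rectInt_eq_zero (Φ : ℂ → ℂ) {a b R : ℝ}
    (H : DifferentiableOn ℂ Φ ((uIcc a b) ×ℂ (uIcc (-R) R))) : rectInt Φ a b R = 0 := by
  have := Complex.integral_boundary_rect_eq_zero_of_differentiableOn Φ (a + (-R : ℝ) * I) (b + R * I)
    (by simpa using H)
  simpa [rectInt] using this

lemma vert_int (b R : ℝ) (hb : b ≠ 0) : ∫ y : ℝ in (-R)..R, ((b : ℂ) + y * I)⁻¹ =
    ((2 * Real.arctan (R / b) : ℝ) : ℂ) := by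
  have hpos : ∀ y : ℝ, 0 < b ^ 2 + y ^ 2 := fun y => by positivity
  have hd : ∀ y ∈ Set.uIcc (-R) R, HasDerivAt (fun y : ℝ => ((Real.arctan (y / b) : ℝ) : ℂ) -
      I / 2 * ((Real.log (b ^ 2 + y ^ 2) : ℝ) : ℂ)) (((b : ℂ) + y * I)⁻¹) y := by
    intro y _
    have h1 : HasDerivAt (fun y : ℝ => Real.arctan (y / b)) (b / (b ^ 2 + y ^ 2)) y := by
      have := (HasDerivAt.arctan ((hasDerivAt_id' y).div_const b))
      convert this using 1
      have := hpos y
      field_simp
    have h2 : HasDerivAt (fun y : ℝ => Real.log (b ^ 2 + y ^ 2)) ((2 * y) / (b ^ 2 + y ^ 2)) y := by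
      have := ((hasDerivAt_pow 2 y).const_add (b ^ 2)).log (hpos y).ne'
      simpa using this
    have h3 := h1.ofReal_comp.sub (h2.ofReal_comp.const_mul (I / 2))
    have h4 : HasDerivAt (fun y : ℝ => ((Real.arctan (y / b) : ℝ) : ℂ) -
      I / 2 * ((Real.log (b ^ 2 + y ^ 2) : ℝ) : ℂ)) (((b / (b ^ 2 + y ^ 2) : ℝ) : ℂ) - I / 2 *
        (((2 * y) / (b ^ 2 + y ^ 2) : ℝ) : ℂ)) y := h3
    refine HasDerivAt.congr_deriv h4 ?_
    · have hne : (b : ℂ) + y * I ≠ 0 := by
        intro h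
        apply hb
        have := congrArg Complex.re h
        simpa using this
      have hne2 : (b : ℂ) ^ 2 + y ^ 2 ≠ 0 := by
        have := (hpos y).ne'
        exact_mod_cast this
      push_cast
      field_simp
      ring_nf
      simp only [I_sq]
      ring
  rw [intervalIntegral.integral_eq_sub_of_hasDerivAt hd]
  · have e1 : (-R) / b = -(R / b) := by ring
    rw [e1, Real.arctan_neg]
    push_cast
    have e2 : ((-R : ℝ)) ^ 2 = R ^ 2 := by ring
    rw [e2]
    ring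
  · apply ContinuousOn.intervalIntegrable
    apply ContinuousOn.inv₀
    · fun_prop
    · intro y _ h
      apply hb
      have := congrArg Complex.re h
      simpa using this

lemma horiz_int (a b R : ℝ) (hR : R ≠ 0) :
    (∫ x : ℝ in a..b, ((x : ℂ) + ((-R : ℝ) : ℂ) * I)⁻¹) - (∫ x : ℝ in a..b, ((x : ℂ) + (R : ℂ) * I)⁻¹)
      = 2 * I * ((Real.arctan (b / R) - Real.arctan (a / R) : ℝ) : ℂ) := by
  have hne1 : ∀ x : ℝ, (x : ℂ) + ((-R : ℝ) : ℂ) * I ≠ 0 := by
    intro x h
    apply hR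
    have := congrArg Complex.im h
    simpa using this
  have hne2 : ∀ x : ℝ, (x : ℂ) + (R : ℂ) * I ≠ 0 := by
    intro x h
    apply hR
    have := congrArg Complex.im h
    simpa using this
  have hc1 : IntervalIntegrable (fun x : ℝ => ((x : ℂ) + ((-R : ℝ) : ℂ) * I)⁻¹) volume a b := by
    apply ContinuousOn.intervalIntegrable
    apply ContinuousOn.inv₀
    · fun_prop
    · intro x _; exact hne1 x
  have hc2 : IntervalIntegrable (fun x : ℝ => ((x : ℂ) + (R : ℂ) * I)⁻¹) volume a b := by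
    apply ContinuousOn.intervalIntegrable
    apply ContinuousOn.inv₀
    · fun_prop
    · intro x _; exact hne2 x
  rw [← intervalIntegral.integral_sub hc1 hc2]
  have hpos : ∀ x : ℝ, 0 < R ^ 2 + x ^ 2 := fun x => by positivity
  have hd : ∀ x ∈ Set.uIcc a b, HasDerivAt (fun x : ℝ => 2 * I * ((Real.arctan (x / R) : ℝ) : ℂ))
      (((x : ℂ) + ((-R : ℝ) : ℂ) * I)⁻¹ - ((x : ℂ) + (R : ℂ) * I)⁻¹) x := by
    intro x _
    have h1 : HasDerivAt (fun y : ℝ => Real.arctan (y / R)) (R / (R ^ 2 + x ^ 2)) x := by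
      have := (HasDerivAt.arctan ((hasDerivAt_id' x).div_const R))
      convert this using 1
      have := hpos x
      field_simp
    refine HasDerivAt.congr_deriv (h1.ofReal_comp.const_mul (2 * I)) ?_
    have hne3 : (R : ℂ) ^ 2 + x ^ 2 ≠ 0 := by
      have := (hpos x).ne'
      exact_mod_cast this
    have h4 := hne1 x
    have h5 := hne2 x
    rw [inv_sub_inv h4 h5]
    have h6 : ((x : ℂ) + ((-R : ℝ) : ℂ) * I) * ((x : ℂ) + (R : ℂ) * I) = (R : ℂ) ^ 2 + x ^ 2 := by
      push_cast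
      ring_nf
      simp only [I_sq]
      ring
    rw [h6]
    push_cast
    field_simp
    ring
  rw [intervalIntegral.integral_eq_sub_of_hasDerivAt hd (hc1.sub hc2)]
  push_cast
  ring

lemma rectInt_inv {a b R : ℝ} (ha : a < 0) (hb : 0 < b) (hR : 0 < R) :
    rectInt (fun z => z⁻¹) a b R = 2 * Real.pi * I := by
  unfold rectInt
  rw [horiz_int a b R hR.ne', vert_int b R hb.ne', vert_int a R ha.ne]
  have h1 : Real.arctan (R / b) = Real.pi / 2 - Real.arctan (b / R) := by
    have := Real.arctan_inv_of_pos (show 0 < b / R by positivity)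
    rw [inv_div] at this
    exact this
  have h2 : Real.arctan (R / a) = -(Real.pi / 2) - Real.arctan (a / R) := by
    have := Real.arctan_inv_of_neg (show a / R < 0 from div_neg_of_neg_of_pos ha hR)
    rw [inv_div] at this
    exact this
  rw [h1, h2]
  push_cast
  ring

lemma rectInt_div {Φ : ℂ → ℂ} {a b R : ℝ} (ha : a < 0) (hb : 0 < b) (hR : 0 < R)
    (H : DifferentiableOn ℂ Φ ((uIcc a b) ×ℂ (uIcc (-R) R))) :
    rectInt (fun z => Φ z / z) a b R = 2 * Real.pi * I * Φ 0 := by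
  have hnhds : ((uIcc a b) ×ℂ (uIcc (-R) R)) ∈ 𝓝 (0 : ℂ) := by
    rw [Set.uIcc_of_le (by linarith), Set.uIcc_of_le (by linarith)]
    rw [mem_nhds_iff]
    refine ⟨Ioo a b ×ℂ Ioo (-R) R, ?_, ?_, ?_⟩
    · intro z hz
      rw [mem_reProdIm] at hz ⊢
      exact ⟨Ioo_subset_Icc_self hz.1, Ioo_subset_Icc_self hz.2⟩
    · exact isOpen_Ioo.reProdIm isOpen_Ioo
    · rw [mem_reProdIm]
      simp [ha, hb, hR]
  have hds : DifferentiableOn ℂ (dslope Φ 0) ((uIcc a b) ×ℂ (uIcc (-R) R)) :=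
    (Complex.differentiableOn_dslope hnhds).mpr H
  have h0 := rectInt_eq_zero _ hds
  have hinv := rectInt_inv ha hb hR
  have hcont := hds.continuousOn
  have key : ∀ z : ℂ, z ≠ 0 → Φ z / z = dslope Φ 0 z + Φ 0 * z⁻¹ := by
    intro z hz
    rw [dslope_of_ne _ hz, slope_def_field]
    field_simp
    ring
  -- membership of the sides
  have m1 : ∀ x ∈ Set.uIcc a b, ((x : ℂ) + ((-R : ℝ) : ℂ) * I) ∈ ((uIcc a b) ×ℂ (uIcc (-R) R)) := by
    intro x hx; rw [mem_reProdIm]; simp [hx]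
  have m2 : ∀ x ∈ Set.uIcc a b, ((x : ℂ) + (R : ℂ) * I) ∈ ((uIcc a b) ×ℂ (uIcc (-R) R)) := by
    intro x hx; rw [mem_reProdIm]; simp [hx]
  have m3 : ∀ y ∈ Set.uIcc (-R) R, ((b : ℂ) + y * I) ∈ ((uIcc a b) ×ℂ (uIcc (-R) R)) := by
    intro x hx; rw [mem_reProdIm]; simp [hx]
  have m4 : ∀ y ∈ Set.uIcc (-R) R, ((a : ℂ) + y * I) ∈ ((uIcc a b) ×ℂ (uIcc (-R) R)) := by
    intro x hx; rw [mem_reProdIm]; simp [hx]
  have n1 : ∀ x : ℝ, (x : ℂ) + ((-R : ℝ) : ℂ) * I ≠ 0 := by
    intro x h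
    have := congrArg Complex.im h
    simp at this; linarith
  have n2 : ∀ x : ℝ, (x : ℂ) + (R : ℂ) * I ≠ 0 := by
    intro x h
    have := congrArg Complex.im h
    simp at this; linarith
  have n3 : ∀ y : ℝ, (b : ℂ) + y * I ≠ 0 := by
    intro x h
    have := congrArg Complex.re h
    simp at this; linarith
  have n4 : ∀ y : ℝ, (a : ℂ) + y * I ≠ 0 := by
    intro x h
    have := congrArg Complex.re h
    simp at this; linarith
  have split : ∀ (c d : ℝ) (γ : ℝ → ℂ), Continuous γ → (∀ x ∈ Set.uIcc c d, γ x ∈ ((uIcc a b) ×ℂ (uIcc (-R) R))) →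
      (∀ x, γ x ≠ 0) → (∫ x in c..d, Φ (γ x) / γ x) =
        (∫ x in c..d, dslope Φ 0 (γ x)) + Φ 0 * ∫ x in c..d, (γ x)⁻¹ := by
    intro c d γ hγ hm hn
    rw [← intervalIntegral.integral_const_mul, ← intervalIntegral.integral_add]
    · apply intervalIntegral.integral_congr
      intro x _
      exact key _ (hn x)
    · apply ContinuousOn.intervalIntegrable
      exact hcont.comp hγ.continuousOn hm
    · apply ContinuousOn.intervalIntegrable
      apply ContinuousOn.mul continuousOn_const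
      exact hγ.continuousOn.inv₀ (fun x _ => hn x)
  unfold rectInt at h0 hinv ⊢
  rw [split a b (fun x => (x : ℂ) + ((-R : ℝ) : ℂ) * I) (by fun_prop) m1 n1,
    split a b (fun x => (x : ℂ) + (R : ℂ) * I) (by fun_prop) m2 n2,
    split (-R) R (fun y => (b : ℂ) + y * I) (by fun_prop) m3 n3,
    split (-R) R (fun y => (a : ℂ) + y * I) (by fun_prop) m4 n4]
  rw [← hinv]
  linear_combination h0

end Pool.Agent.H62.PNT

end part1

section part2

open Complex MeasureTheory Set Filter Topology Asymptotics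

namespace Pool.Agent.H62.PNT

/-- truncated Mellin transform -/
noncomputable def gX (f : ℝ → ℝ) (X : ℝ) (z : ℂ) : ℂ := ∫ x in Ioc 1 X, (f x : ℂ) * (x : ℂ) ^ (-z - 1)

lemma gX_eq_mellin (f : ℝ → ℝ) (X : ℝ) (z : ℂ) :
    gX f X z = mellin ((Ioc 1 X).indicator (fun x => (f x : ℂ))) (-z) := by
  unfold gX mellin
  have h : ∀ t : ℝ, (t : ℂ) ^ (-z - 1) • (Ioc 1 X).indicator (fun x => (f x : ℂ)) t =
      (Ioc 1 X).indicator (fun x => (f x : ℂ) * (x : ℂ) ^ (-z - 1)) t := by
    intro t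
    by_cases ht : t ∈ Ioc 1 X
    · simp [indicator_of_mem ht, mul_comm]
    · simp [indicator_of_notMem ht]
  simp_rw [h]
  rw [setIntegral_indicator measurableSet_Ioc]
  congr 1
  congr 1
  rw [eq_comm, inter_eq_right]
  intro x hx
  exact lt_trans zero_lt_one hx.1

lemma gX_differentiable {f : ℝ → ℝ} (hf : Measurable f) {B : ℝ} (hB : ∀ x, |f x| ≤ B) (X : ℝ) :
    Differentiable ℂ (gX f X) := by
  intro z
  have h1 : DifferentiableAt ℂ (mellin ((Ioc 1 X).indicator (fun x => (f x : ℂ)))) (-z) := by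
    apply mellin_differentiableAt_of_isBigO_rpow (a := (-z).re + 1) (b := (-z).re - 1)
    · apply LocallyIntegrable.locallyIntegrableOn
      apply Integrable.locallyIntegrable
      rw [integrable_indicator_iff measurableSet_Ioc]
      apply Measure.integrableOn_of_bounded (M := B)
      · simp
      · exact (Complex.measurable_ofReal.comp hf).aestronglyMeasurable
      · filter_upwards with x
        simpa using hB x
    · refine EventuallyEq.trans_isBigO ?_ (isBigO_zero _ _)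
      filter_upwards [eventually_gt_atTop X] with x hx
      rw [indicator_of_notMem]
      · intro h; exact absurd h.2 (not_le.mpr hx)
    · linarith
    · refine EventuallyEq.trans_isBigO ?_ (isBigO_zero _ _)
      have : Iio (1 : ℝ) ∈ 𝓝[>] (0 : ℝ) := mem_nhdsWithin_of_mem_nhds (Iio_mem_nhds zero_lt_one)
      filter_upwards [this] with x hx
      rw [indicator_of_notMem]
      · intro h; exact absurd h.1 (not_lt.mpr (le_of_lt hx))
    · linarith
  have h2 : gX f X = (mellin ((Ioc 1 X).indicator (fun x => (f x : ℂ)))) ∘ (fun z => -z) := by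
    funext w; exact gX_eq_mellin f X w
  rw [h2]
  exact h1.comp z (by fun_prop)

lemma norm_integrand {f : ℝ → ℝ} {B : ℝ} (hB : ∀ x, |f x| ≤ B) (z : ℂ) {x : ℝ} (hx : 0 < x) :
    ‖(f x : ℂ) * (x : ℂ) ^ (-z - 1)‖ ≤ B * x ^ (-z.re - 1) := by
  rw [norm_mul, Complex.norm_real, Complex.norm_cpow_eq_rpow_re_of_pos hx]
  have : (-z - 1).re = -z.re - 1 := by simp
  rw [this]
  exact mul_le_mul_of_nonneg_right (hB x) (Real.rpow_nonneg hx.le _)

lemma integrand_integrable {f : ℝ → ℝ} (hf : Measurable f) {B : ℝ} (hB : ∀ x, |f x| ≤ B) {z : ℂ}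
    (hz : 0 < z.re) : IntegrableOn (fun x : ℝ => (f x : ℂ) * (x : ℂ) ^ (-z - 1)) (Ioi 1) := by
  have hr : IntegrableOn (fun x : ℝ => B * x ^ (-z.re - 1)) (Ioi 1) :=
    (integrableOn_Ioi_rpow_of_lt (by linarith) zero_lt_one).const_mul B
  refine Integrable.mono' hr ?_ ?_
  · apply Measurable.aestronglyMeasurable
    apply Measurable.mul
    · exact Complex.measurable_ofReal.comp hf
    · fun_prop
  · rw [ae_restrict_iff' measurableSet_Ioi]
    filter_upwards with x hx
    exact norm_integrand hB z (lt_trans zero_lt_one hx)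

lemma tail_bound {f : ℝ → ℝ} (hf : Measurable f) {B : ℝ} (hB : ∀ x, |f x| ≤ B) {z : ℂ}
    (hz : 0 < z.re) {X : ℝ} (hX : 1 ≤ X) :
    ‖(∫ x in Ioi (1 : ℝ), (f x : ℂ) * (x : ℂ) ^ (-z - 1)) - gX f X z‖ ≤ B * X ^ (-z.re) / z.re := by
  have hi := integrand_integrable hf hB hz
  have hX0 : 0 < X := by linarith
  have hu : Ioi (1 : ℝ) = Ioc 1 X ∪ Ioi X := (Ioc_union_Ioi_eq_Ioi hX).symm
  have hi2 : IntegrableOn (fun x : ℝ => (f x : ℂ) * (x : ℂ) ^ (-z - 1)) (Ioi X) :=
    hi.mono_set (Ioi_subset_Ioi hX)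
  have hi1 : IntegrableOn (fun x : ℝ => (f x : ℂ) * (x : ℂ) ^ (-z - 1)) (Ioc 1 X) :=
    hi.mono_set Ioc_subset_Ioi_self
  have hd : Disjoint (Ioc 1 X) (Ioi X) := by
    rw [Set.disjoint_left]
    intro x h1 h2
    exact absurd h1.2 (not_le.mpr h2)
  have e : (∫ x in Ioi (1 : ℝ), (f x : ℂ) * (x : ℂ) ^ (-z - 1)) - gX f X z =
      ∫ x in Ioi X, (f x : ℂ) * (x : ℂ) ^ (-z - 1) := by
    unfold gX
    rw [hu, setIntegral_union hd measurableSet_Ioi hi1 hi2]
    ring
  rw [e]
  have hr : IntegrableOn (fun x : ℝ => B * x ^ (-z.re - 1)) (Ioi X) :=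
    (integrableOn_Ioi_rpow_of_lt (by linarith) hX0).const_mul B
  calc ‖∫ x in Ioi X, (f x : ℂ) * (x : ℂ) ^ (-z - 1)‖ ≤ ∫ x in Ioi X, B * x ^ (-z.re - 1) := by
        apply norm_integral_le_of_norm_le hr
        rw [ae_restrict_iff' measurableSet_Ioi]
        filter_upwards with x hx
        exact norm_integrand hB z (lt_trans hX0 hx)
    _ = B * X ^ (-z.re) / z.re := by
        rw [integral_const_mul, integral_Ioi_rpow_of_lt (by linarith) hX0]
        have : -z.re - 1 + 1 = -z.re := by ring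
        rw [this]
        field_simp

lemma gX_bound {f : ℝ → ℝ} {B : ℝ} (hB : ∀ x, |f x| ≤ B) {z : ℂ}
    (hz : z.re < 0) {X : ℝ} (hX : 1 ≤ X) :
    ‖gX f X z‖ ≤ B * X ^ (-z.re) / (-z.re) := by
  have hB0 : 0 ≤ B := (abs_nonneg _).trans (hB 0)
  have hX0 : 0 < X := by linarith
  unfold gX
  have hr : IntegrableOn (fun x : ℝ => B * x ^ (-z.re - 1)) (Ioc 1 X) := by
    rw [← intervalIntegrable_iff_integrableOn_Ioc_of_le hX]
    apply IntervalIntegrable.const_mul
    apply intervalIntegral.intervalIntegrable_rpow' (by linarith)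
  calc ‖∫ x in Ioc 1 X, (f x : ℂ) * (x : ℂ) ^ (-z - 1)‖ ≤ ∫ x in Ioc 1 X, B * x ^ (-z.re - 1) := by
        apply norm_integral_le_of_norm_le hr
        rw [ae_restrict_iff' measurableSet_Ioc]
        filter_upwards with x hx
        exact norm_integrand hB z (lt_trans zero_lt_one hx.1)
    _ = B * (X ^ (-z.re) - 1) / (-z.re) := by
        rw [← intervalIntegral.integral_of_le hX, intervalIntegral.integral_const_mul,
          integral_rpow (Or.inl (by linarith))]
        have : -z.re - 1 + 1 = -z.re := by ring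
        rw [this, Real.one_rpow]
        ring
    _ ≤ B * X ^ (-z.re) / (-z.re) := by
        apply div_le_div_of_nonneg_right _ (by linarith)
        apply mul_le_mul_of_nonneg_left _ hB0
        linarith

end Pool.Agent.H62.PNT

end part2

section part3

open Complex MeasureTheory Set Filter Topology Asymptotics

namespace Pool.Agent.H62.PNT

/-- kernel `(1 + z²/R²)/z` -/
noncomputable def ker (R : ℝ) (z : ℂ) : ℂ := (1 + z ^ 2 / (R : ℂ) ^ 2) / z

lemma ker_horiz {R x y : ℝ} (hR : 0 < R) (hx : |x| ≤ R) (hy : y = R ∨ y = -R) :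
    ‖ker R ((x : ℂ) + (y : ℂ) * I)‖ ≤ 3 * |x| / R ^ 2 := by
  have hy2 : y ^ 2 = R ^ 2 := by rcases hy with h | h <;> simp [h]
  have hRc : (R : ℂ) ≠ 0 := by exact_mod_cast hR.ne'
  have hyc : (y : ℂ) ^ 2 = (R : ℂ) ^ 2 := by exact_mod_cast hy2
  have hyabs : |y| = R := by
    rcases hy with h | h
    · rw [h, abs_of_pos hR]
    · rw [h, abs_neg, abs_of_pos hR]
  have e1 : 1 + ((x : ℂ) + (y : ℂ) * I) ^ 2 / (R : ℂ) ^ 2 =
      ((x : ℂ) / R) * (((x : ℂ) + 2 * y * I) / R) := by
    have : ((x : ℂ) + (y : ℂ) * I) ^ 2 = (x : ℂ) ^ 2 + 2 * x * y * I - (R : ℂ) ^ 2 := by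
      have h1 : ((x : ℂ) + (y : ℂ) * I) ^ 2 = (x : ℂ) ^ 2 + 2 * x * y * I + (y : ℂ) ^ 2 * I ^ 2 := by ring
      rw [h1, I_sq, hyc]; ring
    rw [this]
    field_simp
    ring
  have hz : R ≤ ‖(x : ℂ) + (y : ℂ) * I‖ := by
    have := Complex.abs_im_le_norm ((x : ℂ) + (y : ℂ) * I)
    simp at this
    rw [hyabs] at this
    exact this
  have h3 : ‖(x : ℂ) + 2 * y * I‖ ≤ 3 * R := by
    calc ‖(x : ℂ) + 2 * y * I‖ ≤ ‖(x : ℂ)‖ + ‖2 * (y : ℂ) * I‖ := norm_add_le _ _
      _ = |x| + 2 * |y| := by simp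
      _ ≤ 3 * R := by rw [hyabs]; linarith
  unfold ker
  rw [e1, norm_div, norm_mul, norm_div, norm_div, Complex.norm_real, Complex.norm_real,
    Real.norm_eq_abs, Real.norm_eq_abs, abs_of_pos hR]
  rw [div_le_iff₀ (by linarith)]
  have hx0 := abs_nonneg x
  calc |x| / R * (‖(x : ℂ) + 2 * y * I‖ / R) ≤ |x| / R * (3 * R / R) := by gcongr
    _ = 3 * |x| / R ^ 2 * R := by field_simp
    _ ≤ 3 * |x| / R ^ 2 * ‖(x : ℂ) + (y : ℂ) * I‖ := by gcongr

lemma ker_vert {R x y : ℝ} (hR : 0 < R) (hy : |y| ≤ R) (hx : x = R ∨ x = -R) :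
    ‖ker R ((x : ℂ) + (y : ℂ) * I)‖ ≤ 3 / R := by
  have hxabs : |x| = R := by
    rcases hx with h | h
    · rw [h, abs_of_pos hR]
    · rw [h, abs_neg, abs_of_pos hR]
  have hz : R ≤ ‖(x : ℂ) + (y : ℂ) * I‖ := by
    have := Complex.abs_re_le_norm ((x : ℂ) + (y : ℂ) * I)
    simp at this
    rw [hxabs] at this
    exact this
  have hz2 : ‖(x : ℂ) + (y : ℂ) * I‖ ^ 2 ≤ 2 * R ^ 2 := by
    rw [← Complex.normSq_eq_norm_sq, Complex.normSq_add_mul_I]
    have h1 : x ^ 2 = R ^ 2 := by rw [← sq_abs, hxabs]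
    have h2 : y ^ 2 ≤ R ^ 2 := by rw [← sq_abs]; gcongr
    linarith
  unfold ker
  rw [norm_div, div_le_div_iff₀ (by linarith) hR]
  have h4 : ‖(1 : ℂ) + ((x : ℂ) + (y : ℂ) * I) ^ 2 / (R : ℂ) ^ 2‖ ≤ 3 := by
    calc ‖(1 : ℂ) + ((x : ℂ) + (y : ℂ) * I) ^ 2 / (R : ℂ) ^ 2‖
        ≤ ‖(1 : ℂ)‖ + ‖((x : ℂ) + (y : ℂ) * I) ^ 2 / (R : ℂ) ^ 2‖ := norm_add_le _ _
      _ = 1 + ‖(x : ℂ) + (y : ℂ) * I‖ ^ 2 / R ^ 2 := by
          rw [norm_one, norm_div, norm_pow, norm_pow, Complex.norm_real, Real.norm_eq_abs,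
            abs_of_pos hR]
      _ ≤ 1 + 2 * R ^ 2 / R ^ 2 := by gcongr
      _ = 3 := by field_simp; norm_num
  calc ‖(1 : ℂ) + ((x : ℂ) + (y : ℂ) * I) ^ 2 / (R : ℂ) ^ 2‖ * R ≤ 3 * R := by gcongr
    _ ≤ 3 * ‖(x : ℂ) + (y : ℂ) * I‖ := by gcongr

/-- splitting a rectangle integral -/
lemma rectInt_split (Ψ : ℂ → ℂ) {a b R : ℝ} 
    (h1 : IntervalIntegrable (fun x : ℝ => Ψ (x + ((-R : ℝ) : ℂ) * I)) volume a 0)
    (h2 : IntervalIntegrable (fun x : ℝ => Ψ (x + ((-R : ℝ) : ℂ) * I)) volume 0 b)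
    (h3 : IntervalIntegrable (fun x : ℝ => Ψ (x + (R : ℂ) * I)) volume a 0)
    (h4 : IntervalIntegrable (fun x : ℝ => Ψ (x + (R : ℂ) * I)) volume 0 b) :
    rectInt Ψ a b R =
      ((∫ x : ℝ in a..0, Ψ (x + ((-R : ℝ) : ℂ) * I)) - (∫ x : ℝ in a..0, Ψ (x + (R : ℂ) * I)) -
        I * ∫ y : ℝ in (-R)..R, Ψ (a + y * I)) +
      ((∫ x : ℝ in (0 : ℝ)..b, Ψ (x + ((-R : ℝ) : ℂ) * I)) - (∫ x : ℝ in (0 : ℝ)..b, Ψ (x + (R : ℂ) * I)) +
        I * ∫ y : ℝ in (-R)..R, Ψ (b + y * I)) := by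
  unfold rectInt
  rw [← intervalIntegral.integral_add_adjacent_intervals h1 h2,
    ← intervalIntegral.integral_add_adjacent_intervals h3 h4]
  ring

/-- three-sided bound -/
lemma three_sides (A1 A2 A3 : ℂ) (c1 c2 c3 : ℝ) (h1 : ‖A1‖ ≤ c1) (h2 : ‖A2‖ ≤ c2) (h3 : ‖A3‖ ≤ c3) :
    ‖A1 - A2 - I * A3‖ ≤ c1 + c2 + c3 := by
  calc ‖A1 - A2 - I * A3‖ ≤ ‖A1 - A2‖ + ‖I * A3‖ := norm_sub_le _ _
    _ ≤ (‖A1‖ + ‖A2‖) + ‖A3‖ := by
        rw [norm_mul, norm_I, one_mul]
        gcongr
        exact norm_sub_le _ _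
    _ ≤ c1 + c2 + c3 := by gcongr

lemma three_sides' (A1 A2 A3 : ℂ) (c1 c2 c3 : ℝ) (h1 : ‖A1‖ ≤ c1) (h2 : ‖A2‖ ≤ c2) (h3 : ‖A3‖ ≤ c3) :
    ‖A1 - A2 + I * A3‖ ≤ c1 + c2 + c3 := by
  calc ‖A1 - A2 + I * A3‖ ≤ ‖A1 - A2‖ + ‖I * A3‖ := norm_add_le _ _
    _ ≤ (‖A1‖ + ‖A2‖) + ‖A3‖ := by
        rw [norm_mul, norm_I, one_mul]
        gcongr
        exact norm_sub_le _ _
    _ ≤ c1 + c2 + c3 := by gcongr

/-- the estimate for fixed `R`, `δ`, `X` -/
lemma newman_estimate {f : ℝ → ℝ} (hf : Measurable f) {B : ℝ} (hB : ∀ x, |f x| ≤ B)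
    {G : ℂ → ℂ} (hGf : ∀ z : ℂ, 0 < z.re → G z = ∫ x in Ioi (1 : ℝ), (f x : ℂ) * (x : ℂ) ^ (-z - 1))
    {R δ : ℝ} (hR : 0 < R) (hδ : 0 < δ)
    (hG : DifferentiableOn ℂ G ((uIcc (-δ) R) ×ℂ (uIcc (-R) R)))
    {M : ℝ} (hM0 : 0 ≤ M)
    (hM1 : ∀ x ∈ Icc (-δ) 0, ‖G (x + ((-R : ℝ) : ℂ) * I) * ker R (x + ((-R : ℝ) : ℂ) * I)‖ ≤ M)
    (hM2 : ∀ x ∈ Icc (-δ) 0, ‖G (x + (R : ℂ) * I) * ker R (x + (R : ℂ) * I)‖ ≤ M)
    (hM3 : ∀ y ∈ Icc (-R) R, ‖G (((-δ : ℝ) : ℂ) + y * I) * ker R (((-δ : ℝ) : ℂ) + y * I)‖ ≤ M)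
    {X : ℝ} (hX : 1 < X) :
    2 * Real.pi * ‖G 0 - gX f X 0‖ ≤ 24 * B / R + (2 * M / Real.log X + 2 * R * M * X ^ (-δ)) := by
  have hB0 : 0 ≤ B := (abs_nonneg _).trans (hB 0)
  have hX0 : 0 < X := by linarith
  have hXc : (X : ℂ) ≠ 0 := by exact_mod_cast hX0.ne'
  have hlog : 0 < Real.log X := Real.log_pos hX
  have hRc : (R : ℂ) ≠ 0 := by exact_mod_cast hR.ne'
  set E : ℂ → ℂ := fun z => (X : ℂ) ^ z * (1 + z ^ 2 / (R : ℂ) ^ 2) with hE
  have hEd : Differentiable ℂ E := by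
    intro z
    apply DifferentiableAt.mul
    · exact (differentiableAt_id).const_cpow (Or.inl hXc)
    · fun_prop
  have hgd := gX_differentiable hf hB X
  have hE0 : E 0 = 1 := by simp [hE]
  -- Cauchy
  have c1 : rectInt (fun z => (G z * E z) / z) (-δ) R R = 2 * Real.pi * I * G 0 := by
    have := rectInt_div (Φ := fun z => G z * E z) (a := -δ) (by linarith) hR hR
      (hG.mul hEd.differentiableOn)
    rw [this, hE0, mul_one]
  have c2 : rectInt (fun z => (gX f X z * E z) / z) (-R) R R = 2 * Real.pi * I * gX f X 0 := by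
    have := rectInt_div (Φ := fun z => gX f X z * E z) (a := -R) (by linarith) hR hR
      (hgd.differentiableOn.mul hEd.differentiableOn)
    rw [this, hE0, mul_one]
  set ΨG : ℂ → ℂ := fun z => (G z * E z) / z with hΨG
  set Ψg : ℂ → ℂ := fun z => (gX f X z * E z) / z with hΨg
  -- continuity on sides
  have nh : ∀ (y : ℝ), y ≠ 0 → ∀ x : ℝ, (x : ℂ) + (y : ℂ) * I ≠ 0 := by
    intro y hy x h
    have := congrArg Complex.im h
    simp at this; exact hy this
  have nv : ∀ (x : ℝ), x ≠ 0 → ∀ y : ℝ, (x : ℂ) + (y : ℂ) * I ≠ 0 := by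
    intro x hx y h
    have := congrArg Complex.re h
    simp at this; exact hx this
  have hGc := hG.continuousOn
  have hmR : (-R : ℝ) ≠ 0 := by simpa using hR.ne'
  have hGh : ∀ y ∈ uIcc (-R) R, y ≠ 0 → ContinuousOn (fun x : ℝ => ΨG (x + (y : ℂ) * I)) (Icc (-δ) R) := by
    intro y hy hy0
    apply ContinuousOn.div
    · apply ContinuousOn.mul
      · apply hGc.comp (by fun_prop)
        intro x hx
        rw [mem_reProdIm]
        refine ⟨?_, ?_⟩
        · rw [uIcc_of_le (by linarith)]; simpa using hx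
        · simpa using hy
      · exact hEd.continuous.comp_continuousOn (by fun_prop)
    · fun_prop
    · intro x _; exact nh y hy0 x
  have hgh : ∀ y : ℝ, y ≠ 0 → Continuous (fun x : ℝ => Ψg (x + (y : ℂ) * I)) := by
    intro y hy0
    apply Continuous.div
    · apply Continuous.mul
      · exact hgd.continuous.comp (by fun_prop)
      · exact hEd.continuous.comp (by fun_prop)
    · fun_prop
    · intro x; exact nh y hy0 x
  have hGv : ∀ x ∈ uIcc (-δ) R, x ≠ 0 → ContinuousOn (fun y : ℝ => ΨG (x + (y : ℂ) * I)) (Icc (-R) R) := by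
    intro x hx hx0
    apply ContinuousOn.div
    · apply ContinuousOn.mul
      · apply hGc.comp (by fun_prop)
        intro y hy
        rw [mem_reProdIm]
        refine ⟨?_, ?_⟩
        · simpa using hx
        · rw [uIcc_of_le (by linarith)]; simpa using hy
      · exact hEd.continuous.comp_continuousOn (by fun_prop)
    · fun_prop
    · intro y _; exact nv x hx0 y
  have hgv : ∀ x : ℝ, x ≠ 0 → Continuous (fun y : ℝ => Ψg (x + (y : ℂ) * I)) := by
    intro x hx0
    apply Continuous.div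
    · apply Continuous.mul
      · exact hgd.continuous.comp (by fun_prop)
      · exact hEd.continuous.comp (by fun_prop)
    · fun_prop
    · intro y; exact nv x hx0 y
  have mR : R ∈ uIcc (-R) R := right_mem_uIcc
  have mmR : -R ∈ uIcc (-R) R := left_mem_uIcc
  have iG : ∀ y ∈ uIcc (-R) R, y ≠ 0 → ∀ c d, c ∈ Icc (-δ) R → d ∈ Icc (-δ) R →
      IntervalIntegrable (fun x : ℝ => ΨG (x + (y : ℂ) * I)) volume c d := by
    intro y hy hy0 c d hc hd
    apply ContinuousOn.intervalIntegrable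
    apply (hGh y hy hy0).mono
    exact (ordConnected_Icc.uIcc_subset hc hd)
  have ig : ∀ y : ℝ, y ≠ 0 → ∀ c d, IntervalIntegrable (fun x : ℝ => Ψg (x + (y : ℂ) * I)) volume c d :=
    fun y hy c d => (hgh y hy).intervalIntegrable c d
  have q0 : (0 : ℝ) ∈ Icc (-δ) R := ⟨by linarith, hR.le⟩
  have q1 : (-δ : ℝ) ∈ Icc (-δ) R := ⟨le_rfl, by linarith⟩
  have q2 : (R : ℝ) ∈ Icc (-δ) R := ⟨by linarith, le_rfl⟩
  rw [rectInt_split ΨG (iG _ mmR hmR _ _ q1 q0) (iG _ mmR hmR _ _ q0 q2)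
    (iG _ mR hR.ne' _ _ q1 q0) (iG _ mR hR.ne' _ _ q0 q2)] at c1
  rw [rectInt_split Ψg (ig _ hmR _ _) (ig _ hmR _ _) (ig _ hR.ne' _ _) (ig _ hR.ne' _ _)] at c2
  -- norm of `E`
  have hEk : ∀ z : ℂ, ‖E z / z‖ = X ^ z.re * ‖ker R z‖ := by
    intro z
    simp only [hE]
    rw [mul_div_assoc, norm_mul, Complex.norm_cpow_eq_rpow_re_of_pos hX0]
    rfl
  -- pointwise bounds
  have bR : ∀ z : ℂ, 0 < z.re → ‖ΨG z - Ψg z‖ ≤ B / z.re * ‖ker R z‖ := by
    intro z hz
    have e : ΨG z - Ψg z = (G z - gX f X z) * (E z / z) := by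
      simp only [hΨG, hΨg]; ring
    rw [e, norm_mul, hEk, hGf z hz]
    have h1 := tail_bound hf hB hz hX.le
    calc _ ≤ B * X ^ (-z.re) / z.re * (X ^ z.re * ‖ker R z‖) := by gcongr
      _ = B / z.re * ‖ker R z‖ * (X ^ (-z.re) * X ^ z.re) := by ring
      _ = B / z.re * ‖ker R z‖ := by
          rw [← Real.rpow_add hX0]; simp
  have bL : ∀ z : ℂ, z.re < 0 → ‖Ψg z‖ ≤ B / (-z.re) * ‖ker R z‖ := by
    intro z hz
    have e : Ψg z = (gX f X z) * (E z / z) := by
      simp only [hΨg]; ring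
    rw [e, norm_mul, hEk]
    have h1 := gX_bound hB hz hX.le
    have hz' : 0 < -z.re := by linarith
    calc _ ≤ B * X ^ (-z.re) / (-z.re) * (X ^ z.re * ‖ker R z‖) := by gcongr
      _ = B / (-z.re) * ‖ker R z‖ * (X ^ (-z.re) * X ^ z.re) := by ring
      _ = B / (-z.re) * ‖ker R z‖ := by
          rw [← Real.rpow_add hX0]; simp
  -- right horizontals
  have hRh : ∀ y : ℝ, (y = R ∨ y = -R) →
      ‖∫ x : ℝ in (0 : ℝ)..R, (ΨG (x + (y : ℂ) * I) - Ψg (x + (y : ℂ) * I))‖ ≤ 3 * B / R := by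
    intro y hy
    have := intervalIntegral.norm_integral_le_of_norm_le_const (a := 0) (b := R) (C := 3 * B / R ^ 2)
      (f := fun x : ℝ => ΨG (x + (y : ℂ) * I) - Ψg (x + (y : ℂ) * I)) ?_
    · refine this.trans ?_
      rw [sub_zero, abs_of_pos hR]
      apply le_of_eq
      field_simp
    · intro x hx
      rw [uIoc_of_le hR.le] at hx
      have hre : ((x : ℂ) + (y : ℂ) * I).re = x := by simp
      have h1 := bR ((x : ℂ) + (y : ℂ) * I) (by rw [hre]; exact hx.1)
      rw [hre] at h1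
      refine h1.trans ?_
      have h2 := ker_horiz hR (x := x) (by rw [abs_of_pos hx.1]; exact hx.2) hy
      rw [abs_of_pos hx.1] at h2
      have hx1 := hx.1
      calc B / x * ‖ker R ((x : ℂ) + (y : ℂ) * I)‖ ≤ B / x * (3 * x / R ^ 2) := by gcongr
        _ = 3 * B / R ^ 2 := by field_simp
  have hRv : ‖∫ y : ℝ in (-R)..R, (ΨG ((R : ℂ) + y * I) - Ψg ((R : ℂ) + y * I))‖ ≤ 6 * B / R := by
    have := intervalIntegral.norm_integral_le_of_norm_le_const (a := -R) (b := R) (C := 3 * B / R ^ 2)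
      (f := fun y : ℝ => ΨG ((R : ℂ) + y * I) - Ψg ((R : ℂ) + y * I)) ?_
    · refine this.trans ?_
      rw [abs_of_pos (by linarith : 0 < R - -R)]
      apply le_of_eq
      field_simp
      ring
    · intro y hy
      rw [uIoc_of_le (by linarith)] at hy
      have hre : ((R : ℂ) + (y : ℂ) * I).re = R := by simp
      have h1 := bR ((R : ℂ) + (y : ℂ) * I) (by rw [hre]; exact hR)
      rw [hre] at h1
      refine h1.trans ?_
      have h2 := ker_vert hR (y := y) (by rw [abs_le]; exact ⟨hy.1.le, hy.2⟩) (x := R) (Or.inl rfl)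
      calc B / R * ‖ker R ((R : ℂ) + (y : ℂ) * I)‖ ≤ B / R * (3 / R) := by gcongr
        _ = 3 * B / R ^ 2 := by field_simp
  -- left sides for g
  have hLh : ∀ y : ℝ, (y = R ∨ y = -R) →
      ‖∫ x : ℝ in (-R)..0, Ψg (x + (y : ℂ) * I)‖ ≤ 3 * B / R := by
    intro y hy
    have := intervalIntegral.norm_integral_le_of_norm_le_const (a := -R) (b := 0) (C := 3 * B / R ^ 2)
      (f := fun x : ℝ => Ψg (x + (y : ℂ) * I)) ?_
    · refine this.trans ?_
      rw [zero_sub, neg_neg, abs_of_pos hR]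
      apply le_of_eq
      field_simp
    · intro x hx
      rw [uIoc_of_le (by linarith)] at hx
      rcases eq_or_lt_of_le hx.2 with h0 | h0
      · -- x = 0
        have hk : E ((x : ℂ) + (y : ℂ) * I) = 0 := by
          rw [h0]
          have hy2 : y ^ 2 = R ^ 2 := by rcases hy with h | h <;> simp [h]
          have hyc : (y : ℂ) ^ 2 = (R : ℂ) ^ 2 := by exact_mod_cast hy2
          simp only [hE]
          have : (1 : ℂ) + (((0 : ℝ) : ℂ) + (y : ℂ) * I) ^ 2 / (R : ℂ) ^ 2 = 0 := by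
            rw [Complex.ofReal_zero, zero_add, mul_pow, I_sq, hyc]
            field_simp
            ring
          rw [this, mul_zero]
        simp only [hΨg, hk, mul_zero, zero_div, norm_zero]
        positivity
      · have hre : ((x : ℂ) + (y : ℂ) * I).re = x := by simp
        have h1 := bL ((x : ℂ) + (y : ℂ) * I) (by rw [hre]; exact h0)
        rw [hre] at h1
        refine h1.trans ?_
        have h2 := ker_horiz hR (x := x) (by rw [abs_of_neg h0]; linarith [hx.1]) hy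
        rw [abs_of_neg h0] at h2
        have hx1 : 0 < -x := by linarith
        calc B / (-x) * ‖ker R ((x : ℂ) + (y : ℂ) * I)‖ ≤ B / (-x) * (3 * (-x) / R ^ 2) := by gcongr
          _ = 3 * B / R ^ 2 := by
              have : x ≠ 0 := h0.ne
              field_simp
  have hLv : ‖∫ y : ℝ in (-R)..R, Ψg (((-R : ℝ) : ℂ) + y * I)‖ ≤ 6 * B / R := by
    have := intervalIntegral.norm_integral_le_of_norm_le_const (a := -R) (b := R) (C := 3 * B / R ^ 2)
      (f := fun y : ℝ => Ψg (((-R : ℝ) : ℂ) + y * I)) ?_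
    · refine this.trans ?_
      rw [abs_of_pos (by linarith : 0 < R - -R)]
      apply le_of_eq
      field_simp
      ring
    · intro y hy
      rw [uIoc_of_le (by linarith)] at hy
      have hre : (((-R : ℝ) : ℂ) + (y : ℂ) * I).re = -R := by simp
      have h1 := bL (((-R : ℝ) : ℂ) + (y : ℂ) * I) (by rw [hre]; linarith)
      rw [hre, neg_neg] at h1
      refine h1.trans ?_
      have h2 := ker_vert hR (y := y) (by rw [abs_le]; exact ⟨hy.1.le, hy.2⟩) (x := -R) (Or.inr rfl)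
      calc B / R * ‖ker R (((-R : ℝ) : ℂ) + (y : ℂ) * I)‖ ≤ B / R * (3 / R) := by gcongr
        _ = 3 * B / R ^ 2 := by field_simp
  -- left sides for G
  have hGpt : ∀ z : ℂ, ‖ΨG z‖ = ‖G z * ker R z‖ * X ^ z.re := by
    intro z
    have e : ΨG z = G z * (E z / z) := by
      simp only [hΨG]; ring
    rw [e, norm_mul, hEk, norm_mul]; ring
  have hGh' : ∀ y : ℝ, (∀ x ∈ Icc (-δ) 0, ‖G (x + (y : ℂ) * I) * ker R (x + (y : ℂ) * I)‖ ≤ M) →
      ‖∫ x : ℝ in (-δ)..0, ΨG (x + (y : ℂ) * I)‖ ≤ M / Real.log X := by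
    intro y hy
    have hint : IntervalIntegrable (fun x : ℝ => M * Real.exp (Real.log X * x)) volume (-δ) 0 :=
      Continuous.intervalIntegrable (by fun_prop) _ _
    have h1 : ‖∫ x : ℝ in (-δ)..0, ΨG (x + (y : ℂ) * I)‖ ≤ ∫ x : ℝ in (-δ)..0, M * Real.exp (Real.log X * x) := by
      apply intervalIntegral.norm_integral_le_of_norm_le (by linarith) _ hint
      filter_upwards with x hx
      have hre : ((x : ℂ) + (y : ℂ) * I).re = x := by simp
      rw [hGpt, hre, Real.rpow_def_of_pos hX0]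
      exact mul_le_mul_of_nonneg_right (hy x ⟨hx.1.le, hx.2⟩) (Real.exp_pos _).le
    refine h1.trans ?_
    rw [intervalIntegral.integral_const_mul]
    have h2 : ∫ x : ℝ in (-δ)..0, Real.exp (Real.log X * x) =
        (Real.log X)⁻¹ * (Real.exp (Real.log X * 0) - Real.exp (Real.log X * (-δ))) := by
      rw [intervalIntegral.integral_comp_mul_left (fun x => Real.exp x) hlog.ne', integral_exp, smul_eq_mul]
    rw [h2, mul_zero, Real.exp_zero]
    have h3 := Real.exp_pos (Real.log X * (-δ))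
    calc M * ((Real.log X)⁻¹ * (1 - Real.exp (Real.log X * (-δ)))) ≤ M * ((Real.log X)⁻¹ * 1) := by
          gcongr; linarith
      _ = M / Real.log X := by field_simp
  have hGv' : ‖∫ y : ℝ in (-R)..R, ΨG (((-δ : ℝ) : ℂ) + y * I)‖ ≤ 2 * R * M * X ^ (-δ) := by
    have := intervalIntegral.norm_integral_le_of_norm_le_const (a := -R) (b := R) (C := M * X ^ (-δ))
      (f := fun y : ℝ => ΨG (((-δ : ℝ) : ℂ) + y * I)) ?_
    · refine this.trans ?_
      rw [abs_of_pos (by linarith : 0 < R - -R)]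
      apply le_of_eq
      ring
    · intro y hy
      rw [uIoc_of_le (by linarith)] at hy
      have hre : (((-δ : ℝ) : ℂ) + (y : ℂ) * I).re = -δ := by simp
      rw [hGpt, hre]
      exact mul_le_mul_of_nonneg_right (hM3 y ⟨hy.1.le, hy.2⟩) (Real.rpow_nonneg hX0.le _)
  -- combine
  have hcomb : 2 * Real.pi * I * (G 0 - gX f X 0) =
      ((∫ x : ℝ in (-δ)..0, ΨG (x + ((-R : ℝ) : ℂ) * I)) - (∫ x : ℝ in (-δ)..0, ΨG (x + (R : ℂ) * I)) -
        I * ∫ y : ℝ in (-R)..R, ΨG (((-δ : ℝ) : ℂ) + y * I)) -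
      ((∫ x : ℝ in (-R)..0, Ψg (x + ((-R : ℝ) : ℂ) * I)) - (∫ x : ℝ in (-R)..0, Ψg (x + (R : ℂ) * I)) -
        I * ∫ y : ℝ in (-R)..R, Ψg (((-R : ℝ) : ℂ) + y * I)) +
      ((∫ x : ℝ in (0 : ℝ)..R, (ΨG (x + ((-R : ℝ) : ℂ) * I) - Ψg (x + ((-R : ℝ) : ℂ) * I))) -
        (∫ x : ℝ in (0 : ℝ)..R, (ΨG (x + (R : ℂ) * I) - Ψg (x + (R : ℂ) * I))) +
        I * ∫ y : ℝ in (-R)..R, (ΨG ((R : ℂ) + y * I) - Ψg ((R : ℂ) + y * I))) := by
    rw [intervalIntegral.integral_sub (iG _ mmR hmR _ _ q0 q2) (ig _ hmR _ _),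
      intervalIntegral.integral_sub (iG _ mR hR.ne' _ _ q0 q2) (ig _ hR.ne' _ _),
      intervalIntegral.integral_sub]
    · linear_combination c2 - c1
    · apply ContinuousOn.intervalIntegrable
      rw [uIcc_of_le (by linarith)]
      exact hGv R right_mem_uIcc hR.ne'
    · exact (hgv R hR.ne').intervalIntegrable _ _
  have hn : 2 * Real.pi * ‖G 0 - gX f X 0‖ = ‖2 * Real.pi * I * (G 0 - gX f X 0)‖ := by
    rw [norm_mul, norm_mul, norm_mul, norm_I, Complex.norm_real, Real.norm_eq_abs,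
      abs_of_pos Real.pi_pos]
    simp
  rw [hn, hcomb]
  have k1 := three_sides _ _ _ _ _ _ (hGh' (-R) hM1) (hGh' R hM2) hGv'
  have k2 := three_sides _ _ _ _ _ _ (hLh (-R) (Or.inr rfl)) (hLh R (Or.inl rfl)) hLv
  have k3 := three_sides' _ _ _ _ _ _ (hRh (-R) (Or.inr rfl)) (hRh R (Or.inl rfl)) hRv
  refine (norm_add_le _ _).trans ?_
  refine (add_le_add (norm_sub_le _ _) k3).trans ?_
  refine (add_le_add_left (add_le_add k1 k2) _).trans ?_
  apply le_of_eq
  ring

end Pool.Agent.H62.PNT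

end part3

section part4

open Complex MeasureTheory Set Filter Topology Asymptotics

namespace Pool.Agent.H62.PNT

/-- **Newman's Tauberian theorem** (Mellin form) -/
theorem newman {f : ℝ → ℝ} (hf : Measurable f) {B : ℝ} (hB : ∀ x, |f x| ≤ B)
    {G : ℂ → ℂ} {U : Set ℂ} (hU : IsOpen U) (hU0 : ∀ z : ℂ, 0 ≤ z.re → z ∈ U)
    (hG : DifferentiableOn ℂ G U)
    (hGf : ∀ z : ℂ, 0 < z.re → G z = ∫ x in Ioi (1 : ℝ), (f x : ℂ) * (x : ℂ) ^ (-z - 1)) :
    Tendsto (fun X => gX f X 0) atTop (𝓝 (G 0)) := by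
  have hB0 : 0 ≤ B := (abs_nonneg _).trans (hB 0)
  rw [Metric.tendsto_atTop]
  intro ε hε
  set R : ℝ := 24 * B / ε + 1 with hRdef
  have hR : 0 < R := by positivity
  have hRB : 24 * B / R ≤ ε := by
    rw [div_le_iff₀ hR, hRdef]
    have : ε * (24 * B / ε + 1) = 24 * B + ε := by field_simp
    rw [this]; linarith
  -- a strip to the left
  set K : Set ℂ := (fun y : ℝ => (y : ℂ) * I) '' Icc (-R) R with hK
  have hKc : IsCompact K := isCompact_Icc.image (by fun_prop)
  have hKU : K ⊆ U := by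
    rintro z ⟨y, _, rfl⟩
    apply hU0
    simp
  obtain ⟨δ0, hδ0, hthick⟩ := hKc.exists_thickening_subset_open hU hKU
  set δ : ℝ := δ0 / 2 with hδdef
  have hδ : 0 < δ := by positivity
  have hrect : ((uIcc (-δ) R) ×ℂ (uIcc (-R) R)) ⊆ U := by
    intro z hz
    rw [mem_reProdIm, uIcc_of_le (by linarith), uIcc_of_le (by linarith)] at hz
    by_cases hre : 0 ≤ z.re
    · exact hU0 z hre
    · push Not at hre
      apply hthick
      rw [Metric.mem_thickening_iff]
      refine ⟨(z.im : ℂ) * I, ⟨z.im, hz.2, rfl⟩, ?_⟩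
      rw [dist_eq_norm]
      have : z - (z.im : ℂ) * I = (z.re : ℂ) := by
        apply Complex.ext <;> simp
      rw [this, Complex.norm_real, Real.norm_eq_abs, abs_of_neg hre]
      have := hz.1.1
      linarith
  have hGr := hG.mono hrect
  have hGc := hGr.continuousOn
  have hRc : (R : ℂ) ≠ 0 := by exact_mod_cast hR.ne'
  have nh : ∀ (y : ℝ), y ≠ 0 → ∀ x : ℝ, (x : ℂ) + (y : ℂ) * I ≠ 0 := by
    intro y hy x h
    have := congrArg Complex.im h
    simp at this; exact hy this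
  have nv : ∀ (x : ℝ), x ≠ 0 → ∀ y : ℝ, (x : ℂ) + (y : ℂ) * I ≠ 0 := by
    intro x hx y h
    have := congrArg Complex.re h
    simp at this; exact hx this
  have hch : ∀ y ∈ uIcc (-R) R, y ≠ 0 →
      ContinuousOn (fun x : ℝ => G (x + (y : ℂ) * I) * ker R (x + (y : ℂ) * I)) (Icc (-δ) 0) := by
    intro y hy hy0
    apply ContinuousOn.mul
    · apply hGc.comp (by fun_prop)
      intro x hx
      rw [mem_reProdIm]
      refine ⟨?_, ?_⟩
      · rw [uIcc_of_le (by linarith)]
        simp only [add_re, ofReal_re, mul_re, I_re, mul_zero, ofReal_im, I_im, mul_one, sub_self,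
          add_zero]
        exact ⟨hx.1, hx.2.trans hR.le⟩
      · simpa using hy
    · unfold ker
      apply ContinuousOn.div
      · fun_prop
      · fun_prop
      · intro x _; exact nh y hy0 x
  have hcv : ContinuousOn (fun y : ℝ => G (((-δ : ℝ) : ℂ) + y * I) * ker R (((-δ : ℝ) : ℂ) + y * I))
      (Icc (-R) R) := by
    apply ContinuousOn.mul
    · apply hGc.comp (by fun_prop)
      intro y hy
      rw [mem_reProdIm]
      refine ⟨?_, ?_⟩
      · have : (((-δ : ℝ) : ℂ) + (y : ℂ) * I).re = -δ := by simp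
        rw [this]; exact left_mem_uIcc
      · rw [uIcc_of_le (by linarith)]; simpa using hy
    · unfold ker
      apply ContinuousOn.div
      · fun_prop
      · fun_prop
      · intro y _; exact nv (-δ) (by linarith) y
  obtain ⟨M1, hM1⟩ := isCompact_Icc.exists_bound_of_continuousOn
    (hch (-R) left_mem_uIcc (by linarith))
  obtain ⟨M2, hM2⟩ := isCompact_Icc.exists_bound_of_continuousOn
    (hch R right_mem_uIcc (by linarith))
  obtain ⟨M3, hM3⟩ := isCompact_Icc.exists_bound_of_continuousOn hcv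
  set M : ℝ := |M1| + |M2| + |M3| with hM
  have a1 := abs_nonneg M1
  have a2 := abs_nonneg M2
  have a3 := abs_nonneg M3
  have b1 := le_abs_self M1
  have b2 := le_abs_self M2
  have b3 := le_abs_self M3
  have hM0 : 0 ≤ M := by positivity
  -- the error terms tend to zero
  have ht1 : Tendsto (fun X : ℝ => 2 * M / Real.log X + 2 * R * M * X ^ (-δ)) atTop (𝓝 (0 + 0)) := by
    apply Tendsto.add
    · exact tendsto_const_nhds.div_atTop Real.tendsto_log_atTop
    · have := (tendsto_rpow_neg_atTop hδ).const_mul (2 * R * M)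
      simpa using this
  rw [add_zero] at ht1
  have hev := (Metric.tendsto_atTop.mp ht1) ε hε
  obtain ⟨N, hN⟩ := hev
  refine ⟨max N 2, fun X hX => ?_⟩
  have hX1 : N ≤ X := (le_max_left _ _).trans hX
  have hX2 : 1 < X := by
    have := (le_max_right N 2).trans hX
    linarith
  have hest := newman_estimate hf hB hGf hR hδ hGr hM0
    (fun x hx => (hM1 x hx).trans (by linarith)) (fun x hx => (hM2 x hx).trans (by linarith))
    (fun y hy => (hM3 y hy).trans (by linarith)) hX2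
  have hN' := hN X hX1
  rw [Real.dist_eq, sub_zero] at hN'
  have hN'' := lt_of_le_of_lt (le_abs_self _) hN'
  have hpi := Real.pi_gt_three
  rw [dist_comm, dist_eq_norm]
  have hfin : 2 * Real.pi * ‖G 0 - gX f X 0‖ < 2 * ε := by linarith
  have hnn := norm_nonneg (G 0 - gX f X 0)
  nlinarith

end Pool.Agent.H62.PNT

end part4

section part5

open Complex MeasureTheory Set Filter Topology Asymptotics ArithmeticFunction

namespace Pool.Agent.H62.PNT

noncomputable section

/-- `(s-1) ζ(s)`, entire -/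
def Z : ℂ → ℂ := DirichletCharacter.LFunctionTrivChar₁ 1

lemma Z_diff : Differentiable ℂ Z := DirichletCharacter.differentiable_LFunctionTrivChar₁ 1

lemma Z_of_ne {s : ℂ} (hs : s ≠ 1) : Z s = (s - 1) * riemannZeta s := by
  unfold Z DirichletCharacter.LFunctionTrivChar₁
  rw [Function.update_of_ne hs]
  simp [DirichletCharacter.LFunctionTrivChar]

lemma Z_ne_zero {s : ℂ} (hs : 1 ≤ s.re) : Z s ≠ 0 := by
  by_cases h : s = 1
  · rw [h]; exact DirichletCharacter.LFunctionTrivChar₁_apply_one_ne_zero 1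
  · rw [Z_of_ne h]
    exact mul_ne_zero (sub_ne_zero.mpr h) (riemannZeta_ne_zero_of_one_le_re hs)

lemma deriv_Z {s : ℂ} (hs : s ≠ 1) : deriv Z s = (s - 1) * deriv riemannZeta s + riemannZeta s := by
  have := DirichletCharacter.deriv_LFunctionTrivChar₁_apply_of_ne_one 1 hs
  unfold Z
  rw [this]
  simp [DirichletCharacter.LFunctionTrivChar]

/-- the continued transform -/
def Gf (z : ℂ) : ℂ := -(1 + deriv Z (z + 1) / Z (z + 1)) / (z + 1)

def Uf : Set ℂ := {z | z + 1 ≠ 0 ∧ Z (z + 1) ≠ 0}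

lemma Uf_open : IsOpen Uf := by
  apply IsOpen.inter
  · exact isOpen_ne_fun (by fun_prop) continuous_const
  · exact isOpen_ne_fun (Z_diff.continuous.comp (by fun_prop)) continuous_const

lemma Uf_mem (z : ℂ) (hz : 0 ≤ z.re) : z ∈ Uf := by
  refine ⟨?_, ?_⟩
  · intro h
    have := congrArg Complex.re h
    simp at this
    linarith
  · apply Z_ne_zero
    simpa using hz

lemma Gf_diff : DifferentiableOn ℂ Gf Uf := by
  intro z hz
  apply DifferentiableAt.differentiableWithinAt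
  have h1 : DifferentiableAt ℂ (fun z => deriv Z (z + 1)) z := by
    have : Differentiable ℂ (deriv Z) :=
      (Z_diff.contDiff (n := 2)).differentiable_deriv_two
    exact (this _).comp z (by fun_prop)
  have h2 : DifferentiableAt ℂ (fun z => Z (z + 1)) z := (Z_diff _).comp z (by fun_prop)
  unfold Gf
  apply DifferentiableAt.div
  · apply DifferentiableAt.neg
    apply DifferentiableAt.add (by fun_prop)
    exact h1.div h2 hz.2
  · fun_prop
  · exact hz.1

/-- the function `ψ(x)/x - 1` -/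
def ff (x : ℝ) : ℝ := Chebyshev.psi x / x - 1

lemma ff_meas : Measurable ff := by
  unfold ff
  exact (Chebyshev.psi_mono.measurable.div measurable_id).sub measurable_const

lemma ff_bound (x : ℝ) : |ff x| ≤ Real.log 4 + 5 := by
  have h0 := Chebyshev.psi_nonneg x
  have hlog : 0 < Real.log 4 := Real.log_pos (by norm_num)
  unfold ff
  rcases le_or_gt x 0 with hx | hx
  · rw [Chebyshev.psi_eq_zero_of_lt_two (by linarith)]
    simp
    linarith
  · have h1 := Chebyshev.psi_le_const_mul_self hx.le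
    have h2 : Chebyshev.psi x / x ≤ Real.log 4 + 4 := by
      rw [div_le_iff₀ hx]; exact h1
    have h3 : 0 ≤ Chebyshev.psi x / x := by positivity
    rw [abs_le]
    constructor <;> linarith

lemma psi_eq_Icc (t : ℝ) : (Chebyshev.psi t : ℂ) = ∑ k ∈ Finset.Icc 1 ⌊t⌋₊, (Λ k : ℂ) := by
  rw [Chebyshev.psi]
  push_cast
  rfl

lemma Gf_eq (z : ℂ) (hz : 0 < z.re) : Gf z = ∫ x in Ioi (1 : ℝ), (ff x : ℂ) * (x : ℂ) ^ (-z - 1) := by
  have hs : 1 < (z + 1).re := by simpa using hz
  have hne : z + 1 ≠ 1 := by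
    intro h
    have := congrArg Complex.re h
    simp at this; linarith
  have hz0 : z ≠ 0 := by
    intro h; rw [h] at hz; simp at hz
  have hz1 : z + 1 ≠ 0 := by
    intro h
    have := congrArg Complex.re h
    simp at this; linarith
  have hO : (fun n : ℕ ↦ ∑ k ∈ Finset.Icc 1 n, Λ k) =O[atTop] fun n : ℕ ↦ (n : ℝ) ^ (1 : ℝ) := by
    apply IsBigO.of_bound (Real.log 4 + 4)
    filter_upwards with n
    have h1 := Chebyshev.psi_le_const_mul_self (x := (n : ℝ)) (by positivity)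
    rw [Chebyshev.psi, Nat.floor_natCast] at h1
    have e : ∑ k ∈ Finset.Icc 1 n, Λ k = ∑ k ∈ Finset.Ioc 0 n, Λ k := rfl
    rw [e, Real.norm_of_nonneg, Real.rpow_one, Real.norm_of_nonneg (by positivity)]
    · exact h1
    · exact Finset.sum_nonneg fun _ _ => vonMangoldt_nonneg
  have hL := LSeries_eq_mul_integral_of_nonneg (fun n => Λ n) (r := 1) zero_le_one hs hO
    (fun n => vonMangoldt_nonneg)
  have hL2 := ArithmeticFunction.LSeries_vonMangoldt_eq_deriv_riemannZeta_div hs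
  have hζ : riemannZeta (z + 1) ≠ 0 := riemannZeta_ne_zero_of_one_le_re hs.le
  rw [hL2] at hL
  -- compute the integral
  have hI1 : ∫ x in Ioi (1 : ℝ), ((x : ℂ) ^ (-z - 1)) = 1 / z := by
    rw [integral_Ioi_cpow_of_lt (by simp; linarith) zero_lt_one]
    simp
  have hint1 : IntegrableOn (fun x : ℝ => (x : ℂ) ^ (-z - 1)) (Ioi 1) :=
    integrableOn_Ioi_cpow_of_lt (by simp; linarith) zero_lt_one
  have hint2 : IntegrableOn (fun x : ℝ => (ff x : ℂ) * (x : ℂ) ^ (-z - 1)) (Ioi 1) :=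
    integrand_integrable ff_meas ff_bound hz
  have hsum : ∫ x in Ioi (1 : ℝ), (∑ k ∈ Finset.Icc 1 ⌊x⌋₊, (Λ k : ℂ)) * (x : ℂ) ^ (-(z + 1 + 1)) =
      (∫ x in Ioi (1 : ℝ), (ff x : ℂ) * (x : ℂ) ^ (-z - 1)) + ∫ x in Ioi (1 : ℝ), ((x : ℂ) ^ (-z - 1)) := by
    rw [← integral_add hint2 hint1]
    apply setIntegral_congr_fun measurableSet_Ioi
    intro x hx
    have hx0 : (x : ℂ) ≠ 0 := by
      have : (0 : ℝ) < x := lt_trans zero_lt_one hx
      exact_mod_cast this.ne'
    simp only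
    rw [← psi_eq_Icc, ff]
    push_cast
    have e : -(z + 1 + 1) = (-z - 1) - 1 := by ring
    rw [e, Complex.cpow_sub _ _ hx0, Complex.cpow_one]
    field_simp
    ring
  rw [hsum, hI1] at hL
  unfold Gf
  rw [deriv_Z hne, Z_of_ne hne]
  set J := ∫ x in Ioi (1 : ℝ), (ff x : ℂ) * (x : ℂ) ^ (-z - 1) with hJ
  have e1 : z + 1 - 1 = z := by ring
  rw [e1]
  have hL' : -deriv riemannZeta (z + 1) = (z + 1) * (J + 1 / z) * riemannZeta (z + 1) := by
    field_simp at hL ⊢
    linear_combination hL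
  have hd : deriv riemannZeta (z + 1) = -((z + 1) * (J + 1 / z) * riemannZeta (z + 1)) := by
    linear_combination -hL'
  rw [hd]
  field_simp
  ring

theorem newman_psi : Tendsto (fun X => gX ff X 0) atTop (𝓝 (Gf 0)) :=
  newman ff_meas ff_bound Uf_open Uf_mem Gf_diff Gf_eq

end

end Pool.Agent.H62.PNT

end part5

section part6

open MeasureTheory Set Filter Topology Asymptotics ArithmeticFunction

namespace Pool.Agent.H62.PNT

noncomputable section

/-- `∫_1^X (ψ(t) - t)/t² dt` -/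
def II (X : ℝ) : ℝ := ∫ x in Ioc 1 X, ff x / x

lemma gX_eq_II (X : ℝ) : gX ff X 0 = (II X : ℂ) := by
  unfold gX II
  rw [← integral_complex_ofReal]
  apply setIntegral_congr_fun measurableSet_Ioc
  intro x hx
  simp only
  have hx0 : (x : ℂ) ≠ 0 := by
    have : (0 : ℝ) < x := lt_trans zero_lt_one hx.1
    exact_mod_cast this.ne'
  rw [neg_zero, zero_sub, Complex.cpow_neg_one]
  push_cast
  rw [div_eq_mul_inv]

lemma II_tendsto : Tendsto II atTop (𝓝 (Gf 0).re) := by
  have h := newman_psi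
  have h2 := (Complex.continuous_re.tendsto _).comp h
  refine h2.congr ?_
  intro X
  simp [gX_eq_II]

lemma ff_int {a b : ℝ} (ha : 0 < a) (hab : a ≤ b) : IntegrableOn (fun x => ff x / x) (Ioc a b) := by
  have h1 : IntegrableOn (fun x : ℝ => (Real.log 4 + 5) * a⁻¹) (Ioc a b) := by
    have hs : volume (Ioc a b) ≠ ⊤ := by simp
    have hC : ‖(Real.log 4 + 5) * a⁻¹‖ₑ ≠ ⊤ := enorm_ne_top
    exact integrableOn_const hs hC
  refine Integrable.mono' h1 ?_ ?_
  · exact (ff_meas.div measurable_id).aestronglyMeasurable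
  · rw [ae_restrict_iff' measurableSet_Ioc]
    filter_upwards with x hx
    have hx0 : 0 < x := lt_trans ha hx.1
    rw [Real.norm_eq_abs, abs_div, abs_of_pos hx0, div_eq_mul_inv]
    have := ff_bound x
    have hlog : 0 < Real.log 4 := Real.log_pos (by norm_num)
    have h2 : x⁻¹ ≤ a⁻¹ := by
      apply inv_anti₀ ha hx.1.le
    gcongr

lemma II_sub {a b : ℝ} (ha : 1 ≤ a) (hab : a ≤ b) : II b - II a = ∫ x in Ioc a b, ff x / x := by
  unfold II
  have : Ioc 1 b = Ioc 1 a ∪ Ioc a b := (Ioc_union_Ioc_eq_Ioc ha hab).symm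
  rw [this, setIntegral_union]
  · ring
  · rw [Set.disjoint_left]
    intro x h1 h2
    exact absurd h1.2 (not_le.mpr h2.1)
  · exact measurableSet_Ioc
  · exact ff_int zero_lt_one ha
  · exact ff_int (by linarith) hab

/-- the comparison integral -/
lemma comp_int (c : ℝ) {a b : ℝ} (ha : 0 < a) (hab : a ≤ b) :
    ∫ t in Ioc a b, (c - t) / t ^ 2 = (-c / b - Real.log b) - (-c / a - Real.log a) ∧
      IntegrableOn (fun t => (c - t) / t ^ 2) (Ioc a b) := by
  have hc : ContinuousOn (fun t : ℝ => (c - t) / t ^ 2) (uIcc a b) := by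
    apply ContinuousOn.div
    · fun_prop
    · fun_prop
    · intro t ht
      rw [uIcc_of_le hab] at ht
      have : 0 < t := lt_of_lt_of_le ha ht.1
      positivity
  constructor
  · rw [← intervalIntegral.integral_of_le hab]
    rw [intervalIntegral.integral_eq_sub_of_hasDerivAt (f := fun t => -c / t - Real.log t)]
    · intro t ht
      rw [uIcc_of_le hab] at ht
      have ht0 : 0 < t := lt_of_lt_of_le ha ht.1
      have h1 : HasDerivAt (fun t : ℝ => -c / t) (c / t ^ 2) t := by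
        have := (hasDerivAt_inv ht0.ne').const_mul (-c)
        refine (this.congr_deriv ?_)
        field_simp
      have h2 := Real.hasDerivAt_log ht0.ne'
      have h3 : HasDerivAt (fun t : ℝ => -c / t - Real.log t) (c / t ^ 2 - t⁻¹) t := h1.sub h2
      refine h3.congr_deriv ?_
      field_simp
    · exact hc.intervalIntegrable
  · rw [← intervalIntegrable_iff_integrableOn_Ioc_of_le hab]
    exact hc.intervalIntegrable

lemma upper_step {lam x : ℝ} (hl : 1 < lam) (hx : 1 ≤ x) (h : lam * x ≤ Chebyshev.psi x) :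
    lam - 1 - Real.log lam ≤ II (lam * x) - II x := by
  have hx0 : 0 < x := by linarith
  have hab : x ≤ lam * x := by nlinarith
  rw [II_sub hx hab]
  obtain ⟨e, hi⟩ := comp_int (lam * x) hx0 hab
  have e2 : (-(lam * x) / (lam * x) - Real.log (lam * x)) - (-(lam * x) / x - Real.log x) =
      lam - 1 - Real.log lam := by
    rw [Real.log_mul (by linarith) hx0.ne']
    field_simp
    ring
  rw [← e2, ← e]
  apply setIntegral_mono_on hi (ff_int hx0 hab) measurableSet_Ioc
  intro t ht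
  have ht0 : 0 < t := lt_trans hx0 ht.1
  have hm : Chebyshev.psi x ≤ Chebyshev.psi t := Chebyshev.psi_mono ht.1.le
  have e3 : ff t / t = (Chebyshev.psi t - t) / t ^ 2 := by
    unfold ff; field_simp
  rw [e3]
  gcongr
  linarith

lemma lower_step {mu x : ℝ} (hm0 : 0 < mu) (hm : mu < 1) (hx : 1 ≤ mu * x)
    (h : Chebyshev.psi x ≤ mu * x) :
    II x - II (mu * x) ≤ 1 - mu + Real.log mu := by
  have hx0 : 0 < x := by
    by_contra hcon
    push Not at hcon
    nlinarith
  have hab : mu * x ≤ x := by nlinarith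
  rw [II_sub hx hab]
  obtain ⟨e, hi⟩ := comp_int (mu * x) (by linarith : 0 < mu * x) hab
  have e2 : (-(mu * x) / x - Real.log x) - (-(mu * x) / (mu * x) - Real.log (mu * x)) =
      1 - mu + Real.log mu := by
    rw [Real.log_mul hm0.ne' hx0.ne']
    field_simp
    ring
  rw [← e2, ← e]
  apply setIntegral_mono_on (ff_int (by linarith) hab) hi measurableSet_Ioc
  intro t ht
  have ht0 : 0 < t := lt_trans (by linarith) ht.1
  have hm : Chebyshev.psi t ≤ Chebyshev.psi x := Chebyshev.psi_mono ht.2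
  have e3 : ff t / t = (Chebyshev.psi t - t) / t ^ 2 := by
    unfold ff; field_simp
  rw [e3]
  gcongr
  linarith

theorem psi_div_tendsto : Tendsto (fun x => Chebyshev.psi x / x) atTop (𝓝 1) := by
  have hT := II_tendsto
  set L := (Gf 0).re with hL
  have key : ∀ ε : ℝ, 0 < ε → ε < 1 → ∀ᶠ x in atTop, |Chebyshev.psi x / x - 1| < ε := by
    intro ε h0 h1
    set lam := 1 + ε with hlam
    set mu := 1 - ε with hmu
    have hc1 : 0 < lam - 1 - Real.log lam := by
      have := Real.log_lt_sub_one_of_pos (by linarith : 0 < lam) (by linarith : lam ≠ 1)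
      linarith
    have hc2 : 1 - mu + Real.log mu < 0 := by
      have := Real.log_lt_sub_one_of_pos (by linarith : 0 < mu) (by linarith : mu ≠ 1)
      linarith
    have t1 : Tendsto (fun x => II (lam * x) - II x) atTop (𝓝 (L - L)) := by
      apply Tendsto.sub _ hT
      exact hT.comp (tendsto_id.const_mul_atTop (by linarith))
    have t2 : Tendsto (fun x => II x - II (mu * x)) atTop (𝓝 (L - L)) := by
      apply Tendsto.sub hT
      exact hT.comp (tendsto_id.const_mul_atTop (by linarith))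
    rw [sub_self] at t1 t2
    have ev1 := t1.eventually (gt_mem_nhds hc1)
    have ev2 := t2.eventually (lt_mem_nhds hc2)
    filter_upwards [ev1, ev2, eventually_ge_atTop 1, eventually_ge_atTop (1 / mu)] with x hx1 hx2 hx3 hx4
    have hx0 : 0 < x := by linarith
    have u1 : Chebyshev.psi x < lam * x := by
      by_contra hcon
      push Not at hcon
      have := upper_step (by linarith) hx3 hcon
      linarith
    have u2 : mu * x < Chebyshev.psi x := by
      by_contra hcon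
      push Not at hcon
      have hmx : 1 ≤ mu * x := by
        rw [div_le_iff₀ (by linarith)] at hx4
        linarith
      have := lower_step (by linarith) (by linarith) hmx hcon
      linarith
    rw [abs_lt]
    constructor
    · rw [lt_sub_iff_add_lt, lt_div_iff₀ hx0]
      have : -ε + 1 = mu := by rw [hmu]; ring
      rw [this]; exact u2
    · rw [sub_lt_iff_lt_add, div_lt_iff₀ hx0]
      exact u1.trans_le (by rw [hlam])|>.trans_le (by linarith)
  rw [Metric.tendsto_nhds]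
  intro ε hε
  have := key (min ε (1 / 2)) (by positivity) (by
    have := min_le_right ε (1 / 2); linarith)
  filter_upwards [this] with x hx
  rw [Real.dist_eq]
  exact hx.trans_le (min_le_left _ _)

/-- **Prime number theorem**, Chebyshev `θ` form. -/
theorem theta_div_tendsto : Tendsto (fun x => Chebyshev.theta x / x) atTop (𝓝 1) := by
  have h1 := psi_div_tendsto
  have h2 : Tendsto (fun x : ℝ => (Chebyshev.psi x - Chebyshev.theta x) / x) atTop (𝓝 0) := by
    have h3 : Tendsto (fun x : ℝ => 2 * (Real.log x / x ^ (1 / 2 : ℝ))) atTop (𝓝 (2 * 0)) := by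
      apply Tendsto.const_mul
      exact (isLittleO_log_rpow_atTop (by norm_num)).tendsto_div_nhds_zero
    rw [mul_zero] at h3
    refine squeeze_zero' ?_ ?_ h3
    · filter_upwards [eventually_ge_atTop 1] with x hx
      have := Chebyshev.theta_le_psi x
      apply div_nonneg (by linarith) (by linarith)
    · filter_upwards [eventually_ge_atTop 1] with x hx
      have hx0 : 0 < x := by linarith
      have := Chebyshev.psi_sub_theta_le hx
      rw [div_le_iff₀ hx0]
      refine this.trans (le_of_eq ?_)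
      rw [← Real.sqrt_eq_rpow]
      have hs : √x * √x = x := Real.mul_self_sqrt hx0.le
      have hs0 : √x ≠ 0 := by positivity
      have e : 2 * (Real.log x / √x) * x = 2 * (Real.log x / √x) * (√x * √x) := by rw [hs]
      rw [e]
      field_simp
  have h3 := h1.sub h2
  rw [sub_zero] at h3
  refine h3.congr ?_
  intro x
  ring

/-- **Prime number theorem**: `π(x) log x / x → 1`. -/
theorem primeCounting_tendsto :
    Tendsto (fun x : ℝ => (Nat.primeCounting ⌊x⌋₊ : ℝ) * Real.log x / x) atTop (𝓝 1) := by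
  have h1 := theta_div_tendsto
  have h2 := Chebyshev.primeCounting_sub_theta_div_log_isBigO
  obtain ⟨C, hC⟩ := h2.bound
  have h3 : Tendsto (fun x : ℝ => (Nat.primeCounting ⌊x⌋₊ : ℝ) * Real.log x / x -
      Chebyshev.theta x / x) atTop (𝓝 0) := by
    have h4 : Tendsto (fun x : ℝ => C * (Real.log x)⁻¹) atTop (𝓝 (C * 0)) :=
      Real.tendsto_log_atTop.inv_tendsto_atTop.const_mul C
    rw [mul_zero] at h4
    refine squeeze_zero_norm' ?_ h4
    filter_upwards [hC, eventually_ge_atTop 2] with x hx hx2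
    have hx0 : 0 < x := by linarith
    have hlog : 0 < Real.log x := Real.log_pos (by linarith)
    have e1 : (Nat.primeCounting ⌊x⌋₊ : ℝ) * Real.log x / x - Chebyshev.theta x / x =
        ((Nat.primeCounting ⌊x⌋₊ : ℝ) - Chebyshev.theta x / Real.log x) * (Real.log x / x) := by
      field_simp
    rw [e1, norm_mul]
    have e2 : ‖x / Real.log x ^ 2‖ = x / Real.log x ^ 2 := Real.norm_of_nonneg (by positivity)
    rw [e2] at hx
    have e3 : ‖Real.log x / x‖ = Real.log x / x := Real.norm_of_nonneg (by positivity)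
    rw [e3]
    calc _ ≤ C * (x / Real.log x ^ 2) * (Real.log x / x) := by gcongr
      _ = C * (Real.log x)⁻¹ := by field_simp
  have h5 := h3.add h1
  rw [zero_add] at h5
  refine h5.congr ?_
  intro x
  ring

end

end Pool.Agent.H62.PNT

end part6

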